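import Pool.Agent.Helper94.BA.Defs

/-!
# Project BA, Part I (Steps 1-5): further definitions
-/

set_option autoImplicit false

namespace Pool.Agent.Helper94.BA

open Pool.Agent.Helper33.HM

universe u

variable {B : Type u} [CompleteBooleanAlgebra B]

/-- A sequence of names `a j` which exhausts, with values `e 0 ≥ e 1 ≥ …`, the family coded
by `S`. -/
structure Exhaust (S : (ℕ → B) → B) (a : ℕ → ℕ → B) (e : ℕ → B) : Prop where
  anti : ∀ j, e (j + 1) ≤ e j
  mem : ∀ j, e j ≤ S (a j)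
  ne : ∀ i j, i < j → e j ≤ (eqV (a j) (a i))ᶜ
  cov : ∀ j x, S x ≤ e j ⊔ ⨆ i : ℕ, ⨆ _ : i < j, eqV x (a i)

/-- The value of: `x` is a member of `A` and no `x ∩ Y n` is in the ideal coded by `K`. -/
def manyV (K : Set (Finset ℕ → B)) (A : (ℕ → B) → B) (Y : ℕ → ℕ → B) (x : ℕ → B) : B :=
  A x ⊓ ⨅ n : ℕ, ⨅ C : Finset ℕ → B, ⨅ _ : C ∈ K, (memC (x ⊓ Y n) C)ᶜ

/-- The set `y` of the witness lemma: everything if all the values `e j` hold, otherwise the
complement of the union of the `a j`. -/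
def witY (a : ℕ → ℕ → B) (e : ℕ → B) : ℕ → B := fun k => (⨅ i, e i) ⊔ (⨆ j, e j ⊓ a j k)ᶜ

/-- The sets of the witness lemma: `a j` if all the values `e j` hold, otherwise everything. -/
def witA (a : ℕ → ℕ → B) (e : ℕ → B) : ℕ → ℕ → B := fun j k => ((⨅ i, e i) ⊓ a j k) ⊔ (⨅ i, e i)ᶜ

/-- The set of the elements `k` of `H` which do not belong to any bad node above `t`. -/
def goodSet (T : List (Bool × ℕ) → B) (H : ℕ → B) (t : List (Bool × ℕ)) : ℕ → B := fun k =>
  H k ⊓ ⨅ u : List (Bool × ℕ), ⨅ m : ℕ, ⨅ _ : t <+: u ∧ u.length = k,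
    adV T (u ++ [(true, m)]) H

/-- The compact family of all sets which contain no member of `X`. -/
def avoidC (X : Finset ℕ → B) : Finset ℕ → B := fun s => ⨅ t : Finset ℕ, ⨅ _ : t ⊆ s, (X t)ᶜ

end Pool.Agent.Helper94.BA
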