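import Pool.Agent.Helper40.HM.Generic
import Pool.Agent.Helper84.BA.Defs1

/-!
# Points of a complete Boolean algebra: inequalities between values can be checked pointwise

`Pt B` is the set of the Boolean homomorphisms `B → Prop`. The filter `aeB` is countably complete;
for every family `f : ι → B` (`ι` arbitrary) almost every point respects the supremum and the
infimum of the family, and `a ≤ b` as soon as `φ a → φ b` for almost every point.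
-/

set_option autoImplicit false

namespace Pool.Agent.Helper94.BA

open Pool.Agent.Helper33.HM Filter

universe u

/-- A point: a Boolean homomorphism to `Prop`. -/
structure Pt (B : Type u) [CompleteBooleanAlgebra B] where
  v : B → Prop
  top' : v ⊤
  bot' : ¬ v ⊥
  inf' : ∀ a b, v (a ⊓ b) ↔ v a ∧ v b
  sup' : ∀ a b, v (a ⊔ b) ↔ v a ∨ v b
  compl' : ∀ a, v aᶜ ↔ ¬ v a

section

variable {B : Type u} [CompleteBooleanAlgebra B]

instance : CoeFun (Pt B) (fun _ => B → Prop) := ⟨Pt.v⟩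

namespace Pt

variable (φ : Pt B)

@[simp] theorem top : φ ⊤ ↔ True := ⟨fun _ => trivial, fun _ => φ.top'⟩

@[simp] theorem bot : φ ⊥ ↔ False := ⟨φ.bot', False.elim⟩

@[simp] theorem inf (a b : B) : φ (a ⊓ b) ↔ φ a ∧ φ b := φ.inf' a b

@[simp] theorem sup (a b : B) : φ (a ⊔ b) ↔ φ a ∨ φ b := φ.sup' a b

@[simp] theorem compl (a : B) : φ aᶜ ↔ ¬ φ a := φ.compl' a

@[simp] theorem himp (a b : B) : φ (a ⇨ b) ↔ (φ a → φ b) := by
  rw [himp_eq, sup, compl]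
  tauto

@[simp] theorem iffV (a b : B) : φ (iffV a b) ↔ (φ a ↔ φ b) := by
  unfold Pool.Agent.Helper33.HM.iffV
  rw [inf, himp, himp]
  tauto

theorem mono {a b : B} (h : a ≤ b) (ha : φ a) : φ b := by
  rw [← inf_eq_left.2 h, inf] at ha
  exact ha.2

@[simp] theorem iSup_prop {p : Prop} (f : p → B) : φ (⨆ h : p, f h) ↔ ∃ h : p, φ (f h) := by
  by_cases hp : p
  · rw [iSup_pos (f := f) hp]
    exact ⟨fun h => ⟨hp, h⟩, fun ⟨_, h⟩ => h⟩
  · rw [iSup_neg (f := f) hp]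
    exact ⟨fun h => (φ.bot' h).elim, fun ⟨h, _⟩ => (hp h).elim⟩

@[simp] theorem iInf_prop {p : Prop} (f : p → B) : φ (⨅ h : p, f h) ↔ ∀ h : p, φ (f h) := by
  by_cases hp : p
  · rw [iInf_pos (f := f) hp]
    exact ⟨fun h _ => h, fun h => h hp⟩
  · rw [iInf_neg (f := f) hp]
    exact ⟨fun _ h => (hp h).elim, fun _ => φ.top'⟩

@[simp] theorem ite {p : Prop} [Decidable p] (a b : B) :
    φ (if p then a else b) ↔ if p then φ a else φ b := by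
  split <;> rfl

@[simp] theorem usup (l : List (ℕ → B)) (n : ℕ) : φ (usup l n) ↔ ∃ a ∈ l, φ (a n) := by
  induction l with
  | nil => simp [Pool.Agent.Helper94.BA.usup]
  | cons a l ih =>
    have h : Pool.Agent.Helper94.BA.usup (a :: l) n = a n ⊔ Pool.Agent.Helper94.BA.usup l n := rfl
    rw [h, sup, ih]
    simp

@[simp] theorem allV (A : (ℕ → B) → B) (l : List (ℕ → B)) :
    φ (allV A l) ↔ ∀ a ∈ l, φ (A a) := by
  induction l with
  | nil => simp [Pool.Agent.Helper94.BA.allV]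
  | cons a l ih =>
    have h : Pool.Agent.Helper94.BA.allV A (a :: l) = A a ⊓ Pool.Agent.Helper94.BA.allV A l := rfl
    rw [h, inf, ih]
    simp

@[simp] theorem finN (m n : ℕ) : φ (finN m n) ↔ n < m := by
  unfold Pool.Agent.Helper94.BA.finN
  rw [ite]
  split <;> simp [*]

@[simp] theorem cut (x : ℕ → B) (n k i : ℕ) : φ (cut x n k i) ↔ (n ≤ i ∧ i < k) ∧ φ (x i) := by
  unfold Pool.Agent.Helper94.BA.cut
  rw [ite]
  split <;> simp [*]

end Pt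

/-- The filter of the sets which contain all points which respect countably many given suprema
and infima. -/
def aeB (B : Type u) [CompleteBooleanAlgebra B] : Filter (Pt B) where
  sets := {E | ∃ J : ℕ → Set B, ∀ φ : Pt B,
    (∀ i, (φ (sSup (J i)) ↔ ∃ a ∈ J i, φ a) ∧ (φ (sInf (J i)) ↔ ∀ a ∈ J i, φ a)) → φ ∈ E}
  univ_sets := ⟨fun _ => ∅, fun _ _ => trivial⟩
  sets_of_superset := by
    rintro E F ⟨J, h⟩ hEF
    exact ⟨J, fun φ hφ => hEF (h φ hφ)⟩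
  inter_sets := by
    rintro E F ⟨J, h⟩ ⟨J', h'⟩
    refine ⟨fun i => if i % 2 = 0 then J (i / 2) else J' (i / 2), fun φ hφ => ⟨?_, ?_⟩⟩
    · refine h φ fun i => ?_
      have := hφ (2 * i)
      simpa using this
    · refine h' φ fun i => ?_
      have := hφ (2 * i + 1)
      have h1 : (2 * i + 1) % 2 = 1 := by omega
      have h2 : (2 * i + 1) / 2 = i := by omega
      simpa [h1, h2] using this

theorem mem_aeB {E : Set (Pt B)} : E ∈ aeB B ↔ ∃ J : ℕ → Set B, ∀ φ : Pt B,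
    (∀ i, (φ (sSup (J i)) ↔ ∃ a ∈ J i, φ a) ∧ (φ (sInf (J i)) ↔ ∀ a ∈ J i, φ a)) → φ ∈ E :=
  Iff.rfl

instance : CountableInterFilter (aeB B) := by
  refine ⟨fun S hS h => ?_⟩
  rcases S.eq_empty_or_nonempty with rfl | hne
  · simp
  obtain ⟨f, rfl⟩ := hS.exists_eq_range hne
  have h1 : ∀ n, f n ∈ aeB B := fun n => h (f n) ⟨n, rfl⟩
  simp only [mem_aeB] at h1
  choose J hJ using h1
  refine mem_aeB.2 ⟨fun k => J k.unpair.1 k.unpair.2, ?_⟩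
  rintro φ hφ _ ⟨n, rfl⟩
  refine hJ n φ fun i => ?_
  have := hφ (Nat.pair n i)
  simpa using this

theorem ae_sSup (J : Set B) : ∀ᶠ φ in aeB B, (φ (sSup J) ↔ ∃ a ∈ J, φ a) :=
  mem_aeB.2 ⟨fun _ => J, fun _ h => (h 0).1⟩

theorem ae_sInf (J : Set B) : ∀ᶠ φ in aeB B, (φ (sInf J) ↔ ∀ a ∈ J, φ a) :=
  mem_aeB.2 ⟨fun _ => J, fun _ h => (h 0).2⟩

/-- Almost every point respects a given supremum (over an arbitrary index type). -/
theorem ae_iSup {ι : Sort*} (f : ι → B) : ∀ᶠ φ in aeB B, (φ (⨆ i, f i) ↔ ∃ i, φ (f i)) := by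
  filter_upwards [ae_sSup (Set.range f)] with φ h
  rw [iSup, h]
  simp

/-- Almost every point respects a given infimum (over an arbitrary index type). -/
theorem ae_iInf {ι : Sort*} (f : ι → B) : ∀ᶠ φ in aeB B, (φ (⨅ i, f i) ↔ ∀ i, φ (f i)) := by
  filter_upwards [ae_sInf (Set.range f)] with φ h
  rw [iInf, h]
  simp

/-- Countably many events at once. -/
theorem ae_forall {ι : Sort*} [Countable ι] {p : ι → Pt B → Prop}
    (h : ∀ i, ∀ᶠ φ in aeB B, p i φ) : ∀ᶠ φ in aeB B, ∀ i, p i φ :=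
  eventually_countable_forall.2 h

/-- The main tool: inequalities can be checked at almost every point. -/
theorem le_of_ae {a b : B} (h : ∀ᶠ φ in aeB B, φ a → φ b) : a ≤ b := by
  by_contra hcon
  have h1 : a ⊓ bᶜ ≠ ⊥ := fun h2 => hcon (by
    rwa [← disjoint_iff, disjoint_compl_right_iff] at h2)
  obtain ⟨J, hJ⟩ := mem_aeB.1 h
  obtain ⟨φ, hφ, hφb⟩ := exists_gen J h1
  let ψ : Pt B := ⟨φ, hφ.top, hφ.bot, hφ.inf, hφ.sup, hφ.compl⟩
  have h2 : ψ a → ψ b := hJ ψ fun i => ⟨hφ.sSup i, hφ.sInf i⟩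
  have h3 : ψ (a ⊓ bᶜ) := hφb
  rw [Pt.inf, Pt.compl] at h3
  exact h3.2 (h2 h3.1)

theorem eq_of_ae {a b : B} (h : ∀ᶠ φ in aeB B, (φ a ↔ φ b)) : a = b :=
  le_antisymm (le_of_ae (h.mono fun _ h => h.1)) (le_of_ae (h.mono fun _ h => h.2))

theorem eq_top_of_ae {a : B} (h : ∀ᶠ φ in aeB B, φ a) : a = ⊤ :=
  eq_of_ae (h.mono fun φ h => by simp [h])

theorem eq_bot_of_ae {a : B} (h : ∀ᶠ φ in aeB B, ¬ φ a) : a = ⊥ :=
  eq_of_ae (h.mono fun φ h => by simp [h])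

theorem le_top_of_eq {a : B} (h : a = ⊤) (φ : Pt B) : φ a := by simp [h]

theorem not_of_eq_bot {a : B} (h : a = ⊥) (φ : Pt B) : ¬ φ a := by simp [h]

/-! ## The values of project BA at a point -/

theorem ae_eqV (x y : ℕ → B) : ∀ᶠ φ in aeB B, (φ (eqV x y) ↔ ∀ n, (φ (x n) ↔ φ (y n))) := by
  filter_upwards [ae_iInf fun n => iffV (x n) (y n)] with φ h
  unfold eqV
  rw [h]
  simp

theorem ae_imp (x y : ℕ → B) :
    ∀ᶠ φ in aeB B, (φ (⨅ n, x n ⇨ y n) ↔ ∀ n, φ (x n) → φ (y n)) := by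
  filter_upwards [ae_iInf fun n => x n ⇨ y n] with φ h
  rw [h]
  simp

theorem ae_finV (x : ℕ → B) :
    ∀ᶠ φ in aeB B, (φ (finV x) ↔ ∃ m : ℕ, ∀ n, m ≤ n → ¬ φ (x n)) := by
  filter_upwards [ae_iSup fun m : ℕ => ⨅ n : ℕ, ⨅ _ : m ≤ n, (x n)ᶜ,
    ae_forall fun m : ℕ => ae_iInf fun n : ℕ => ⨅ _ : m ≤ n, (x n)ᶜ] with φ h1 h2
  unfold finV
  rw [h1]
  refine exists_congr fun m => ?_
  rw [h2]
  simp

theorem ae_PC (x : ℕ → B) :
    ∀ᶠ φ in aeB B, ∀ s : Finset ℕ, (φ (PC x s) ↔ ∀ n ∈ s, φ (x n)) := by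
  filter_upwards [ae_forall fun s : Finset ℕ => ae_iInf fun n : ℕ => ⨅ _ : n ∈ s, x n]
    with φ h s
  unfold PC
  rw [h]
  simp

theorem ae_memC (x : ℕ → B) (C : Finset ℕ → B) :
    ∀ᶠ φ in aeB B, (φ (memC x C) ↔ ∀ s : Finset ℕ, (∀ n ∈ s, φ (x n)) → φ (C s)) := by
  filter_upwards [ae_iInf fun s : Finset ℕ => PC x s ⇨ C s, ae_PC x] with φ h1 h2
  unfold memC
  rw [h1]
  simp [h2]

theorem ae_joinC (C D : Finset ℕ → B) :
    ∀ᶠ φ in aeB B, ∀ s, (φ (joinC C D s) ↔ ∃ t ⊆ s, φ (C t) ∧ φ (D (s \ t))) := by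
  filter_upwards [ae_forall fun s : Finset ℕ => ae_iSup fun t : Finset ℕ =>
    ⨆ _ : t ⊆ s, C t ⊓ D (s \ t)] with φ h s
  unfold joinC
  rw [h]
  refine exists_congr fun t => ?_
  rw [Pt.iSup_prop]
  simp only [Pt.inf, exists_prop]

theorem ae_JP (K : Set (Finset ℕ → B)) (A : (ℕ → B) → B) (x : ℕ → B) :
    ∀ᶠ φ in aeB B, (φ (JP K A x) ↔ ∀ i : {C // C ∈ K} × List (ℕ → B),
      φ (allV A i.2) → ¬ φ (memC (x ⊓ (usup i.2)ᶜ) i.1.1)) := by
  have h : JP K A x = ⨅ i : {C // C ∈ K} × List (ℕ → B),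
      allV A i.2 ⇨ (memC (x ⊓ (usup i.2)ᶜ) i.1.1)ᶜ := by
    unfold JP
    rw [iInf_prod]
    rw [iInf_subtype]
  filter_upwards [ae_iInf fun i : {C // C ∈ K} × List (ℕ → B) =>
    allV A i.2 ⇨ (memC (x ⊓ (usup i.2)ᶜ) i.1.1)ᶜ] with φ h1
  rw [h, h1]
  simp only [Pt.himp, Pt.compl]

theorem ae_brV (x : ℕ → B) (w : ℕ → ℕ → B) :
    ∀ᶠ φ in aeB B, ∀ t : List (Bool × ℕ), (φ (brV x w t) ↔ ∀ (i : ℕ) (h : i < t.length),
      ((t[i]).1 = true ↔ φ (x i)) ∧ φ (w i (t[i]).2)) := by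
  filter_upwards [ae_forall fun t : List (Bool × ℕ) => ae_iInf fun i : ℕ =>
    ⨅ h : i < t.length, (if (t[i]).1 then x i else (x i)ᶜ) ⊓ w i (t[i]).2] with φ h t
  unfold brV
  rw [h]
  refine forall_congr' fun i => ?_
  rw [Pt.iInf_prop]
  refine forall_congr' fun hi => ?_
  rw [Pt.inf, Pt.ite]
  split <;> simp [*]

theorem ae_brT (T : List (Bool × ℕ) → B) (x : ℕ → B) (w : ℕ → ℕ → B) :
    ∀ᶠ φ in aeB B, (φ (brT T x w) ↔ (∀ i, ∃ k, φ (w i k)) ∧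
      ∀ t : List (Bool × ℕ), φ (brV x w t) → φ (T t)) := by
  filter_upwards [ae_iInf fun i : ℕ => ⨆ k : ℕ, w i k,
    ae_forall fun i : ℕ => ae_iSup fun k : ℕ => w i k,
    ae_iInf fun t : List (Bool × ℕ) => brV x w t ⇨ T t] with φ h1 h2 h3
  unfold brT
  rw [Pt.inf, h1, h3]
  simp [h2]

theorem ae_adV (T : List (Bool × ℕ) → B) (t : List (Bool × ℕ)) (H : ℕ → B) :
    ∀ᶠ φ in aeB B, (φ (adV T t H) ↔ ∀ i : (ℕ → B) × (ℕ → ℕ → B),
      φ (brV i.1 i.2 t) → φ (brT T i.1 i.2) → φ (finV (i.1 ⊓ H))) := by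
  have h : adV T t H = ⨅ i : (ℕ → B) × (ℕ → ℕ → B),
      (brV i.1 i.2 t ⊓ brT T i.1 i.2) ⇨ finV (i.1 ⊓ H) := by
    unfold adV
    rw [iInf_prod]
  filter_upwards [ae_iInf fun i : (ℕ → B) × (ℕ → ℕ → B) =>
    (brV i.1 i.2 t ⊓ brT T i.1 i.2) ⇨ finV (i.1 ⊓ H)] with φ h1
  rw [h, h1]
  simp only [Pt.himp, Pt.inf, and_imp]

theorem ae_ltAt (g h : ℕ → ℕ → B) :
    ∀ᶠ φ in aeB B, ∀ n, (φ (ltAt g h n) ↔ ∃ k, φ (g n k) ∧ ¬ φ (h n k)) := by
  filter_upwards [ae_forall fun n : ℕ => ae_iSup fun k : ℕ => g n k ⊓ (h n k)ᶜ] with φ h1 n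
  unfold ltAt
  rw [h1]
  simp

end

end Pool.Agent.Helper94.BA
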