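import Pool.Agent.Helper84.BA.Pt

/-!
# Project BA, module B5: calculus of compact families
-/

set_option autoImplicit false

namespace Pool.Agent.Helper94.BA

open Pool.Agent.Helper33.HM Filter

universe u

variable {B : Type u} [CompleteBooleanAlgebra B]

theorem memC_sub (x y : ℕ → B) (C : Finset ℕ → B) :
    (⨅ n, x n ⇨ y n) ⊓ memC y C ≤ memC x C := by
  refine le_of_ae ?_
  filter_upwards [ae_imp x y, ae_memC x C, ae_memC y C] with φ h1 h2 h3
  rw [Pt.inf, h1, h2, h3]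
  rintro ⟨h4, h5⟩ s hs
  exact h5 s fun n hn => h4 n (hs n hn)

theorem memC_anti {x y : ℕ → B} (h : x ≤ y) (C : Finset ℕ → B) : memC y C ≤ memC x C := by
  have h1 := memC_sub x y C
  have h2 : (⨅ n, x n ⇨ y n) = ⊤ := by
    rw [iInf_eq_top]
    exact fun n => himp_eq_top_iff.2 (h n)
  rwa [h2, top_inf_eq] at h1

theorem memC_mono {C D : Finset ℕ → B} (h : C ≤ D) (x : ℕ → B) : memC x C ≤ memC x D :=
  iInf_mono fun s => himp_le_himp_left (h s)

theorem memC_ext (x y : ℕ → B) (C : Finset ℕ → B) : eqV x y ⊓ memC x C ≤ memC y C := by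
  refine le_of_ae ?_
  filter_upwards [ae_eqV x y, ae_memC x C, ae_memC y C] with φ h1 h2 h3
  rw [Pt.inf, h1, h2, h3]
  rintro ⟨h4, h5⟩ s hs
  exact h5 s fun n hn => (h4 n).2 (hs n hn)

theorem memC_bot {C : Finset ℕ → B} (hC : IsCF C) : memC ⊥ C = ⊤ := by
  refine eq_top_of_ae ?_
  filter_upwards [ae_memC ⊥ C] with φ h
  rw [h]
  intro s hs
  have h1 : s = ∅ := by
    rw [Finset.eq_empty_iff_forall_notMem]
    intro n hn
    have h2 := hs n hn
    simp at h2
  rw [h1, hC.empty]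
  simp

theorem memC_PC (x y : ℕ → B) : memC x (PC y) = ⨅ n, x n ⇨ y n := by
  refine eq_of_ae ?_
  filter_upwards [ae_imp x y, ae_memC x (PC y), ae_PC y] with φ h1 h2 h3
  rw [h1, h2]
  constructor
  · intro h n hn
    have h4 := h {n} (by simpa using hn)
    rw [h3] at h4
    exact h4 n (Finset.mem_singleton_self n)
  · intro h s hs
    rw [h3]
    exact fun n hn => h n (hs n hn)

theorem memC_eq_top_of_PC_le {y : ℕ → B} {C : Finset ℕ → B} (h : PC y ≤ C) : memC y C = ⊤ := by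
  unfold memC
  rw [iInf_eq_top]
  exact fun s => himp_eq_top_iff.2 (h s)

/-- Compactness. -/
theorem memC_tail (x : ℕ → B) (C : Finset ℕ → B) (m : ℕ) :
    memC (x ⊓ (finN m)ᶜ) C = ⨅ k, memC (cut x m k) C := by
  refine eq_of_ae ?_
  filter_upwards [ae_memC (x ⊓ (finN m)ᶜ) C, ae_iInf fun k => memC (cut x m k) C,
    ae_forall fun k => ae_memC (cut x m k) C] with φ h1 h2 h3
  rw [h1, h2]
  simp only [h3, Pt.cut, Pi.inf_apply, Pi.compl_apply, Pt.inf, Pt.compl, Pt.finN, not_lt]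
  constructor
  · intro h k s hs
    exact h s fun n hn => ⟨(hs n hn).2, (hs n hn).1.1⟩
  · intro h s hs
    refine h (s.sup id + 1) s fun n hn => ⟨⟨(hs n hn).2, ?_⟩, (hs n hn).1⟩
    exact Nat.lt_succ_of_le (Finset.le_sup (f := id) hn)

theorem cut_mono {x y : ℕ → B} (h : x ≤ y) (n : ℕ) {k l : ℕ} (hkl : k ≤ l) :
    cut x n k ≤ cut y n l := by
  intro i
  unfold cut
  by_cases h1 : n ≤ i ∧ i < k
  · rw [if_pos h1, if_pos ⟨h1.1, h1.2.trans_le hkl⟩]
    exact h i
  · rw [if_neg h1]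
    exact bot_le

theorem isCF_PC (y : ℕ → B) : IsCF (PC y) := by
  constructor
  · unfold PC
    simp
  · intro s t hst
    exact le_iInf fun n => le_iInf fun hn => (iInf_le _ n).trans (iInf_le _ (hst hn))

end Pool.Agent.Helper94.BA
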