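import Pool.Agent.Helper84.BA.SealExt
import Pool.Agent.Helper45.BA.Chain
import Pool.Agent.Helper19.BA.Decisive
import Pool.Agent.Helper49.BA.GoodSet
import Pool.Agent.Helper91.BA.BadPair
import Pool.Agent.Helper19.BA.BadBot
import Pool.Agent.Helper9.BA.Ideals
import Pool.Agent.Helper37.BA.Canjar

/-!
# Project BA, Part I: assembly (Step 5)
-/

set_option autoImplicit false

namespace Pool.Agent.Helper94.BA

open Pool.Agent.Helper33.HM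

universe u

section

variable {B : Type u} [CompleteBooleanAlgebra B]
variable {K K' : Set (Finset ℕ → B)} {A : (ℕ → B) → B}

/-- N13. -/
theorem exists_ad (hc : CCC B) {h : Ordinal.{0} → ℕ → ℕ → B} (hh : IsScale h)
    (hK : SmallIdeal K) (hA : IsAD A) (htop : JP K A ⊤ = ⊤) {T : List (Bool × ℕ) → B}
    (hTA : ∀ x w, brT T x w ≤ A x) :
    ∃ H : ℕ → B, JP K A H = ⊤ ∧ ∀ x w, brT T x w ≤ finV (x ⊓ H) := by
  obtain ⟨H, hH, hD⟩ := decisive hc hK htop (fun Y hY hP => pplus hc hh hK hA Y hY hP) T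
  have hG := goodSet_small (K := K) (A := A) hD
  have h5 := bad_pair hK hH hG
  have h6 := bad_split (K := K) hTA hH hD []
  have h7 : (adV T [] H)ᶜ = ⊥ := le_bot_iff.1 (h6.trans (iSup_le fun u => iSup_le fun m =>
    iSup_le fun hu => (bad_bot hA hTA h5 u m hu.2.2).le))
  have h8 : adV T [] H = ⊤ := compl_eq_bot.1 h7
  refine ⟨H, hH, fun x w => ?_⟩
  have h9 : adV T [] H ≤ (brV x w [] ⊓ brT T x w) ⇨ finV (x ⊓ H) :=
    (iInf_le _ x).trans (iInf_le _ w)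
  rw [h8, top_le_iff, himp_eq_top_iff] at h9
  have h10 : brV x w [] = ⊤ := by
    unfold brV
    simp
  rwa [h10, top_inf_eq] at h9

theorem h84_isCF_avoidC {X : Finset ℕ → B} (h : X ∅ = ⊥) : IsCF (avoidC X) := by
  constructor
  · unfold avoidC
    rw [eq_top_iff]
    refine le_iInf fun t => le_iInf fun ht => ?_
    rw [Finset.subset_empty.1 ht, h]
    simp
  · intro s t hst
    exact le_iInf fun r => le_iInf fun hr => (iInf_le _ r).trans (iInf_le _ (hr.trans hst))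

/-- N16. -/
theorem task_seal (hc : CCC B) {h : Ordinal.{0} → ℕ → ℕ → B} (hh : IsScale h)
    (hK : SmallIdeal K) (hA : IsAD A) (htop : JP K A ⊤ = ⊤) (X : ℕ → Finset ℕ → B)
    (hX : ∀ n s, X (n + 1) s ≤ X n s) (hX0 : ∀ n, X n ∅ = ⊥) :
    ∃ K' : Set (Finset ℕ → B), SmallIdeal K' ∧ Ref K K' ∧ JP K' A ⊤ = ⊤ ∧
      ((∃ (y : ℕ → B) (n : ℕ), (∃ C ∈ K', PC y ≤ C) ∧ ⨆ s : Finset ℕ, X n s ⊓ PC yᶜ s ≠ ⊤) ∨
        ∃ β : Ordinal.{0}, ∀ m, ∃ C ∈ K', sealC (h β) (fun n => avoidC (X n)) m ≤ C) := by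
  by_cases hcase : ∀ n x, memC x (avoidC (X n)) ⊓ JP K A x = ⊥
  · obtain ⟨β, K', h1, h2, h3, h4⟩ := seal_ext hc hh hK hA htop (fun n => avoidC (X n))
      (fun n => h84_isCF_avoidC (hX0 n)) (fun n s => iInf_mono fun t => iInf_mono fun _ =>
        compl_le_compl (hX n t)) hcase
    exact ⟨K', h1, h2, h3, Or.inr ⟨β, h4⟩⟩
  · push Not at hcase
    obtain ⟨n, x, hb⟩ := hcase
    set b : B := memC x (avoidC (X n)) ⊓ JP K A x with hbdef
    have h1 := JP_mix K A htop b x inf_le_right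
    set z : ℕ → B := fun k => x k ⊔ bᶜ with hz
    obtain ⟨K', h2, h3, ⟨C, hC, hC'⟩, h4⟩ := add_set hK zᶜ (by rwa [compl_compl])
    refine ⟨K', h2, h3, h4, Or.inl ⟨zᶜ, n, ⟨C, hC, hC'⟩, ?_⟩⟩
    intro h5
    apply hb
    have h6 : (⨆ s : Finset ℕ, X n s ⊓ PC zᶜᶜ s) ≤ bᶜ := by
      refine iSup_le fun s => ?_
      rw [compl_compl, le_compl_iff_disjoint_right, disjoint_iff]
      have h7 : PC z s ⊓ b ≤ PC x s := by
        refine le_iInf fun k => le_iInf fun hk => ?_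
        have h8 : PC z s ≤ z k := (iInf_le _ k).trans (iInf_le _ hk)
        calc PC z s ⊓ b ≤ (x k ⊔ bᶜ) ⊓ b := inf_le_inf_right _ h8
          _ ≤ x k := by
            rw [inf_sup_right, compl_inf_eq_bot, sup_bot_eq]
            exact inf_le_left
      have h8 : b ⊓ PC x s ≤ (X n s)ᶜ := by
        have h9 : b ≤ PC x s ⇨ avoidC (X n) s := inf_le_left.trans (iInf_le _ s)
        have h10 : avoidC (X n) s ≤ (X n s)ᶜ := (iInf_le _ s).trans (iInf_le _ subset_rfl)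
        calc b ⊓ PC x s ≤ avoidC (X n) s := by
              rw [← le_himp_iff]
              exact h9
          _ ≤ _ := h10
      have h9 : PC z s ⊓ b ≤ (X n s)ᶜ := (le_inf inf_le_right h7).trans h8
      refine le_bot_iff.1 ?_
      calc X n s ⊓ PC z s ⊓ b = X n s ⊓ (PC z s ⊓ b) := inf_assoc _ _ _
        _ ≤ X n s ⊓ (X n s)ᶜ := inf_le_inf_left _ h9
        _ = ⊥ := inf_compl_eq_bot
    rw [h5, top_le_iff, compl_eq_top] at h6
    exact h6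

/-- The small ideals which are proper modulo `A`. -/
def SI (A : (ℕ → B) → B) : Type u :=
  {K : Set (Finset ℕ → B) // SmallIdeal K ∧ JP K A ⊤ = ⊤}

instance (A : (ℕ → B) → B) : Preorder (SI A) where
  le K K' := Ref K.1 K'.1
  le_refl K := fun C hC => ⟨C, hC, le_rfl⟩
  le_trans K L M h1 h2 := fun C hC => by
    obtain ⟨D, hD, hCD⟩ := h1 C hC
    obtain ⟨E, hE, hDE⟩ := h2 D hD
    exact ⟨E, hE, hCD.trans hDE⟩

theorem h84_memC_top {y : ℕ → B} {C : Finset ℕ → B} : memC y C = ⊤ ↔ PC y ≤ C := by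
  unfold memC
  rw [iInf_eq_top]
  simp only [himp_eq_top_iff]
  exact Iff.rfl

/-- N18. -/
theorem step (hc : CCC B) {h : Ordinal.{0} → ℕ → ℕ → B} (hh : IsScale h)
    (hsurj : ∃ e : Ordinal.{0} → ℕ → B, Function.Surjective e)
    (T : Ordinal.{0} → List (Bool × ℕ) → B) (hA : IsAD (unA T))
    (hfin : ∀ l : List (ℕ → B), allV (unA T) l ⊓ finV (usup l)ᶜ = ⊥) :
    ∃ J : Set (ℕ → B), GoodIdeal h J ∧
      ∀ β, ∃ y ∈ J, ∀ x w, brT (T β) x w ≤ finV (x ⊓ yᶜ) := by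
  classical
  obtain ⟨e, he⟩ := hsurj
  obtain ⟨K₀, hK₀, hK₀t⟩ := base_ideal hfin
  have hne : Nonempty (SI (unA T)) := ⟨⟨K₀, hK₀, hK₀t⟩⟩
  let X : Ordinal.{0} → ℕ → Finset ℕ → B := fun α n s => e α (Nat.pair n (Encodable.encode s))
  have hX : ∀ Z : ℕ → Finset ℕ → B, ∃ α, X α = Z := by
    intro Z
    obtain ⟨α, hα⟩ := he fun k => match (Encodable.decode (α := Finset ℕ) k.unpair.2) with
      | some s => Z k.unpair.1 s
      | none => ⊥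
    refine ⟨α, ?_⟩
    funext n s
    change e α (Nat.pair n (Encodable.encode s)) = _
    rw [hα]
    simp
  let Q : Ordinal.{0} → SI (unA T) → Prop := fun α K =>
    (∃ y, (∃ C ∈ K.1, PC y ≤ C) ∧ ∀ x w, brT (T α) x w ≤ finV (x ⊓ yᶜ)) ∧
    ((∀ n s, X α (n + 1) s ≤ X α n s) → (∀ n, X α n ∅ = ⊥) →
      ((∃ (y : ℕ → B) (n : ℕ), (∃ C ∈ K.1, PC y ≤ C) ∧
        ⨆ s : Finset ℕ, X α n s ⊓ PC yᶜ s ≠ ⊤) ∨
        ∃ β : Ordinal.{0}, ∀ m, ∃ C ∈ K.1, sealC (h β) (fun n => avoidC (X α n)) m ≤ C))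
  obtain ⟨f, hf, hfQ⟩ := exists_chain (D := SI (unA T)) (by
    intro α f hf
    by_cases hα : Nonempty (Set.Iio α)
    · obtain ⟨h1, h2, h3⟩ := union_ideal (A := unA T) (fun i => (f i).1) (fun i => (f i).2.1)
        (fun i j hij => hf hij) (fun i => (f i).2.2)
      exact ⟨⟨_, h1, h2⟩, fun i => h3 i⟩
    · exact ⟨Classical.choice hne, fun i => (hα ⟨i⟩).elim⟩) Q (by
    intro α K
    obtain ⟨H, hH, hH'⟩ := exists_ad hc hh K.2.1 hA K.2.2 (T := T α) (fun x w =>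
      (le_iSup (fun w => brT (T α) x w) w).trans (le_iSup (fun i => ⨆ w, brT (T i) x w) α))
    obtain ⟨K₁, h1, h2, ⟨C, hC, hC'⟩, h4⟩ := add_set K.2.1 Hᶜ (by rwa [compl_compl])
    have hT : ∀ K₂ : Set (Finset ℕ → B), Ref K₁ K₂ →
        ∃ y, (∃ C ∈ K₂, PC y ≤ C) ∧ ∀ x w, brT (T α) x w ≤ finV (x ⊓ yᶜ) := by
      intro K₂ hr
      obtain ⟨D, hD, hCD⟩ := hr C hC
      refine ⟨Hᶜ, ⟨D, hD, hC'.trans hCD⟩, fun x w => ?_⟩
      rw [compl_compl]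
      exact hH' x w
    by_cases hx : (∀ n s, X α (n + 1) s ≤ X α n s) ∧ (∀ n, X α n ∅ = ⊥)
    · obtain ⟨K₂, h5, h6, h7, h8⟩ := task_seal hc hh h1 hA h4 (X α) hx.1 hx.2
      refine ⟨⟨K₂, h5, h7⟩, ?_, hT K₂ h6, fun _ _ => h8⟩
      intro D hD
      obtain ⟨E, hE, hDE⟩ := h2 D hD
      obtain ⟨F, hF, hEF⟩ := h6 E hE
      exact ⟨F, hF, hDE.trans hEF⟩
    · refine ⟨⟨K₁, h1, h4⟩, h2, hT K₁ (fun D hD => ⟨D, hD, le_rfl⟩), fun h9 h10 => ?_⟩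
      exact absurd ⟨h9, h10⟩ hx)
  let J : Set (ℕ → B) := {y | ∃ α, ∃ C ∈ (f α).1, PC y ≤ C}
  have hsup : ∀ x ∈ J, ∀ y ∈ J, x ⊔ y ∈ J := by
    rintro x ⟨α, C, hC, hxC⟩ y ⟨β, D, hD, hyD⟩
    obtain ⟨C', hC', hCC'⟩ := hf (le_max_left α β) C hC
    obtain ⟨D', hD', hDD'⟩ := hf (le_max_right α β) D hD
    have hI := (f (max α β)).2.1
    obtain ⟨E, hE, hE'⟩ := hI.dir C' hC' D' hD'
    refine ⟨max α β, E, hE, ?_⟩
    rw [← h84_memC_top]
    have h1 := memC_joinC (hI.cf C' hC') (hI.cf D' hD') x y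
    rw [h84_memC_top.2 (hxC.trans hCC'), h84_memC_top.2 (hyD.trans hDD'), inf_idem,
      top_le_iff] at h1
    rw [eq_top_iff, ← h1]
    exact memC_mono hE' _
  have hprop : ∀ y ∈ J, ∀ m : ℕ, ⨆ n : ℕ, ⨆ _ : m ≤ n, (y n)ᶜ = ⊤ := by
    rintro y ⟨α, C, hC, hyC⟩ m
    exact proper_of_mem (f α).2.1 (f α).2.2 hC hyC m
  refine ⟨J, ⟨hsup, ?_, hprop, ?_⟩, ?_⟩
  · intro m
    obtain ⟨C, hC, hC'⟩ := (f 0).2.1.fin m
    exact ⟨0, C, hC, hC'⟩
  · intro Z hZ hZ0 hpos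
    obtain ⟨α, rfl⟩ := hX Z
    rcases (hfQ α).2 hZ hZ0 with ⟨y, n, hy, hyn⟩ | ⟨β, hβ⟩
    · exact absurd (hpos n y ⟨α, hy⟩) hyn
    · refine ⟨β, canjar_of_seal hh β (X α) hZ0 hsup hprop ?_⟩
      intro m x hx
      obtain ⟨C, hC, hC'⟩ := hβ m
      exact ⟨α, C, hC, hx.trans hC'⟩
  · intro β
    obtain ⟨y, hy, hy'⟩ := (hfQ β).1
    exact ⟨y, ⟨β, hy⟩, hy'⟩

end

end Pool.Agent.Helper94.BA
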