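import Pool.Agent.Helper84.BA.CalcC1
import Pool.Agent.Helper87.BA.ScaleSmall
import Pool.Agent.Helper9.BA.CalcC2
import Pool.Agent.Helper59.BA.CalcC3
import Pool.Agent.Helper46.BA.FinCalc
import Pool.Agent.Helper28.BA.JPcalc
import Pool.Agent.Helper82.BA.PPlus
import Pool.Agent.Helper83.BA.SealPow
import Pool.Agent.Helper93.BA.SealCore

/-!
# Project BA, module B24: sealing a sequence of compact families (Step 4, case 2)
-/

set_option autoImplicit false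

namespace Pool.Agent.Helper94.BA

open Pool.Agent.Helper33.HM

universe u

section

variable {B : Type u} [CompleteBooleanAlgebra B]
variable {K K' : Set (Finset ℕ → B)} {A : (ℕ → B) → B}

theorem h84_join4 (a b c d : Finset ℕ → B) :
    joinC (joinC a b) (joinC c d) = joinC (joinC a c) (joinC b d) := by
  rw [joinC_assoc, ← joinC_assoc b c d, joinC_comm b c, joinC_assoc c b d, ← joinC_assoc a c]

theorem h84_tail_bot (hK : SmallIdeal K) {z : ℕ → B} (hz : ∀ C ∈ K, memC z C = ⊥) (n : ℕ)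
    {C : Finset ℕ → B} (hC : C ∈ K) : memC (z ⊓ (finN n)ᶜ) C = ⊥ := by
  obtain ⟨F, hF, hF'⟩ := hK.fin n
  obtain ⟨G, hG, hG'⟩ := hK.dir C hC F hF
  have h1 := memC_joinC (hK.cf C hC) (hK.cf F hF) (z ⊓ (finN n)ᶜ) (finN n)
  rw [memC_eq_top_of_PC_le hF', inf_top_eq] at h1
  refine le_bot_iff.1 (h1.trans ?_)
  rw [← hz G hG]
  refine (memC_mono hG' _).trans (memC_anti ?_ G)
  rw [sup_inf_right, compl_sup_eq_top, inf_top_eq]
  exact le_sup_left

/-- N15. -/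
theorem seal_ext (hc : CCC B) {h : Ordinal.{0} → ℕ → ℕ → B} (hh : IsScale h)
    (hK : SmallIdeal K) (hA : IsAD A) (htop : JP K A ⊤ = ⊤) (D : ℕ → Finset ℕ → B)
    (hD : ∀ n, IsCF (D n)) (hDm : ∀ n, D n ≤ D (n + 1))
    (hDJ : ∀ n x, memC x (D n) ⊓ JP K A x = ⊥) :
    ∃ (β : Ordinal.{0}) (K' : Set (Finset ℕ → B)), SmallIdeal K' ∧ Ref K K' ∧
      JP K' A ⊤ = ⊤ ∧ ∀ m, ∃ C ∈ K', sealC (h β) D m ≤ C := by
  obtain ⟨hK2, hr2, htop2⟩ := seal_ideal hK htop D hD hDm hDJ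
  set K2 : Set (Finset ℕ → B) :=
    {E : Finset ℕ → B | ∃ C ∈ K, ∃ n : ℕ, E = joinC C (powC (D n) n)} with hK2def
  obtain ⟨y, a, hpos, hwit⟩ := witness hc hK2 hA (fun _ => ⊤) (fun _ => le_rfl)
    (fun _ => htop2)
  have hpos' : ∀ j, ∀ E ∈ K2, memC (y ⊓ a j) E = ⊥ := by
    intro j E hE
    have h1 := hpos 0 j E hE
    rwa [top_inf_eq] at h1
  have hsmall : Small.{0} {C // C ∈ K} := hK.small
  let g : {C // C ∈ K} × ℕ → ℕ → ℕ → B := fun i n k =>
    (memC (cut (y ⊓ a i.2) n k) (joinC i.1.1 (powC (D n) n)))ᶜ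
  have hg : ∀ i, IsFn Set.univ (g i) := by
    intro i
    refine ⟨fun _ _ => trivial, fun n k => ?_, fun n => ?_⟩
    · exact compl_le_compl (memC_anti (cut_mono le_rfl n (Nat.le_succ k)) _)
    · change ⨆ k, (memC (cut (y ⊓ a i.2) n k) (joinC i.1.1 (powC (D n) n)))ᶜ = ⊤
      rw [← compl_iInf, ← memC_tail, h84_tail_bot hK2 (hpos' i.2) n ⟨i.1.1, i.1.2, n, rfl⟩,
        compl_bot]
  obtain ⟨β, hβ⟩ := scale_small hc hh g hg
  let P : ℕ → ℕ → Finset ℕ → B := fun m r => joinC (PC yᶜ) (powC (sealC (h β) D m) r)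
  have hS : ∀ m, IsCF (sealC (h β) D m) := fun m => isCF_sealC hD _ m
  have hP : ∀ m r, IsCF (P m r) := fun m r => isCF_joinC (isCF_PC _) (isCF_powC (hS m) r)
  let K3 : Set (Finset ℕ → B) := {E | ∃ F ∈ K2, ∃ m r : ℕ, E = joinC F (P m r)}
  have hsmall2 : Small.{0} {C // C ∈ K2} := hK2.small
  have hK3 : SmallIdeal K3 := by
    refine ⟨?_, ?_, ?_, ?_⟩
    · have h1 : K3 = Set.range fun p : {C // C ∈ K2} × ℕ × ℕ => joinC p.1.1 (P p.2.1 p.2.2) := by
        ext E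
        constructor
        · rintro ⟨F, hF, m, r, rfl⟩
          exact ⟨(⟨F, hF⟩, m, r), rfl⟩
        · rintro ⟨⟨⟨F, hF⟩, m, r⟩, rfl⟩
          exact ⟨F, hF, m, r, rfl⟩
      rw [h1]
      infer_instance
    · rintro _ ⟨F, hF, m, r, rfl⟩
      exact isCF_joinC (hK2.cf F hF) (hP m r)
    · intro m
      obtain ⟨F, hF, hF'⟩ := hK2.fin m
      exact ⟨_, ⟨F, hF, 0, 0, rfl⟩, hF'.trans (le_joinC_left _ (hP 0 0))⟩
    · rintro _ ⟨F, hF, m, r, rfl⟩ _ ⟨F', hF', m', r', rfl⟩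
      obtain ⟨E, hE, hE'⟩ := hK2.dir F hF F' hF'
      refine ⟨_, ⟨E, hE, max m m', r + r', rfl⟩, ?_⟩
      rw [h84_join4]
      refine joinC_mono hE' ?_
      change joinC (joinC (PC yᶜ) (powC (sealC (h β) D m) r))
        (joinC (PC yᶜ) (powC (sealC (h β) D m') r')) ≤ _
      rw [h84_join4]
      refine joinC_mono (joinC_PC_self _) ?_
      rw [← joinC_powC]
      exact joinC_mono (powC_mono (hS _) (hS _) (sealC_mono _ _ (le_max_left _ _)) le_rfl)
        (powC_mono (hS _) (hS _) (sealC_mono _ _ (le_max_right _ _)) le_rfl)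
  have hr3 : Ref K2 K3 := fun F hF => ⟨_, ⟨F, hF, 0, 0, rfl⟩, le_joinC_left _ (hP 0 0)⟩
  refine ⟨β, K3, hK3, ?_, ?_, ?_⟩
  · intro C hC
    obtain ⟨E, hE, hE'⟩ := hr2 C hC
    obtain ⟨F, hF, hF'⟩ := hr3 E hE
    exact ⟨F, hF, hE'.trans hF'⟩
  · have h1 : JP K3 A y = ⊤ := by
      refine hwit K3 hK3 hr3 y ?_ ?_
      · intro n
        rw [top_inf_eq, inf_compl_eq_bot]
        exact finV_bot
      · rintro j _ ⟨_, ⟨C, hC, n₀, rfl⟩, m, r, rfl⟩
        set b : B := memC (y ⊓ a j) (joinC (joinC C (powC (D n₀) n₀)) (P m r)) with hb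
        have h2 := hβ (⟨C, hC⟩, j) (max m (n₀ + r))
        have h3 : b ⊓ ⨆ n : ℕ, ⨆ _ : max m (n₀ + r) ≤ n, ltAt (g (⟨C, hC⟩, j)) (h β) n = ⊥ := by
          rw [inf_iSup_eq]
          refine le_bot_iff.1 (iSup_le fun n => ?_)
          rw [inf_iSup_eq]
          refine iSup_le fun hn => ?_
          unfold ltAt
          rw [inf_iSup_eq]
          refine iSup_le fun k => ?_
          have h4 := seal_core (hK.cf C hC) D hD hDm (h β) (y ⊓ a j) y inf_le_left n₀ r m n k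
            ((le_max_right _ _).trans hn) ((le_max_left _ _).trans hn)
          calc b ⊓ (g (⟨C, hC⟩, j) n k ⊓ (h β n k)ᶜ)
              = (b ⊓ (h β n k)ᶜ) ⊓ g (⟨C, hC⟩, j) n k := by
                rw [inf_comm (g _ n k), inf_assoc]
            _ ≤ memC (cut (y ⊓ a j) n k) (joinC C (powC (D n) n)) ⊓
                (memC (cut (y ⊓ a j) n k) (joinC C (powC (D n) n)))ᶜ := inf_le_inf_right _ h4
            _ ≤ ⊥ := by rw [inf_compl_eq_bot]
        rwa [h2, inf_top_eq] at h3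
    exact top_le_iff.1 (h1 ▸ JP_mono K3 A le_top)
  · intro m
    obtain ⟨F, hF, -⟩ := hK2.fin 0
    refine ⟨_, ⟨F, hF, m, 1, rfl⟩, ?_⟩
    have h1 : sealC (h β) D m ≤ powC (sealC (h β) D m) 1 := le_joinC_left _ (isCF_PC _)
    exact h1.trans ((le_joinC_right (isCF_PC _) _).trans (le_joinC_right (hK2.cf F hF) _))

end

end Pool.Agent.Helper94.BA
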