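import Pool.Agent.Helper94.BA.Sent
import Pool.Agent.Helper94.BA.ZfcDefs

/-!
# Project BA, module V5b: the sentence implies `b < a_Borel`
-/

set_option autoImplicit false

namespace Pool.Agent.Helper94.BA

open Cardinal

/-! ## A maximal almost disjoint family -/

theorem h84_exists_mad : ∃ A : Set (ℕ → Bool), MADB A := by
  classical
  let c : ℕ → ℕ → Bool := fun i n => decide ((Nat.unpair n).1 = i)
  have hc1 : ∀ i n, c i n = true ↔ (Nat.unpair n).1 = i := fun i n => by simp [c]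
  have hcinf : ∀ i, {n | (Nat.unpair n).1 = i}.Infinite := by
    intro i
    have hinj : Function.Injective fun j : ℕ => Nat.pair i j := by
      intro a b h
      exact (Nat.pair_eq_pair.1 h).2
    refine (Set.infinite_range_of_injective hinj).mono ?_
    rintro _ ⟨j, rfl⟩
    simp
  have hbase : Set.range c ∈ {A : Set (ℕ → Bool) | ADB A} := by
    refine ⟨?_, ?_⟩
    · rintro _ ⟨i, rfl⟩
      have h : {n | c i n = true} = {n | (Nat.unpair n).1 = i} := by
        ext n
        exact hc1 i n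
      unfold InfB
      rw [h]
      exact hcinf i
    · rintro _ ⟨i, rfl⟩ _ ⟨j, rfl⟩ hij
      have h : {n | c i n = true ∧ c j n = true} = ∅ := by
        ext n
        simp only [Set.mem_ofPred_eq, Set.mem_empty_iff_false, iff_false, hc1]
        rintro ⟨h1, h2⟩
        exact hij (by rw [← h1, ← h2])
      rw [h]
      exact Set.finite_empty
  obtain ⟨M, hM1, hM2⟩ := zorn_subset_nonempty {A : Set (ℕ → Bool) | ADB A} (by
    intro 𝒞 h𝒞 hch _
    refine ⟨⋃₀ 𝒞, ⟨?_, ?_⟩, fun s hs => Set.subset_sUnion_of_mem hs⟩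
    · rintro x ⟨A, hA, hx⟩
      exact (h𝒞 hA).1 x hx
    · rintro x ⟨A, hA, hx⟩ y ⟨A', hA', hy⟩ hxy
      rcases hch.total hA hA' with h | h
      · exact (h𝒞 hA').2 x (h hx) y hy hxy
      · exact (h𝒞 hA).2 x hx y (h hy) hxy) (Set.range c) hbase
  refine ⟨M, ?_, hM2.prop, ?_⟩
  · refine Set.Infinite.mono hM1 (Set.infinite_range_of_injective ?_)
    intro i j hij
    have h := congrFun hij (Nat.pair i 0)
    have h1 : c i (Nat.pair i 0) = true := (hc1 i _).2 (by simp)
    rw [h1] at h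
    have h2 := (hc1 j _).1 h.symm
    simpa using h2
  · rintro ⟨z, hz, hz'⟩
    have hzM : z ∉ M := by
      intro h
      have h1 := hz' z h
      simp only [and_self] at h1
      exact hz h1
    have hins : ADB (insert z M) := by
      refine ⟨?_, ?_⟩
      · rintro x (rfl | hx)
        · exact hz
        · exact hM2.prop.1 x hx
      · rintro x (rfl | hx) y (rfl | hy) hxy
        · exact absurd rfl hxy
        · exact hz' y hy
        · have h1 := hz' x hx
          have h2 : {n | x n = true ∧ y n = true} = {n | y n = true ∧ x n = true} := by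
            ext n
            exact and_comm
          rw [h2]
          exact h1
        · exact hM2.prop.2 x hx y hy hxy
    exact hzM (hM2.le_of_ge hins (Set.subset_insert z M) (Set.mem_insert z M))

/-! ## Coding -/

theorem h84_sh_lt {s n : ℕ} (x : ℕ → Prop) (h : n < s) : sh s x n := Or.inl h

theorem h84_sh_self (s : ℕ) (x : ℕ → Prop) : ¬ sh s x s := by
  rintro (h | h)
  · exact lt_irrefl _ h
  · exact lt_irrefl _ h.1

theorem h84_sh_add (s n : ℕ) (x : ℕ → Prop) : sh s x (s + 1 + n) ↔ x n := by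
  have h : s + 1 + n - s - 1 = n := by omega
  unfold sh
  rw [h]
  constructor
  · rintro (h | h)
    · omega
    · exact h.2
  · intro hx
    exact Or.inr ⟨by omega, hx⟩

theorem h84_sh_inj {s s' : ℕ} {x x' : ℕ → Prop} (h : sh s x = sh s' x') : s = s' ∧ x = x' := by
  have h1 : s = s' := by
    rcases lt_trichotomy s s' with h2 | h2 | h2
    · exfalso
      have h3 : sh s x s := by
        rw [h]
        exact h84_sh_lt x' h2
      exact h84_sh_self s x h3
    · exact h2
    · exfalso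
      have h3 : sh s' x' s' := by
        rw [← h]
        exact h84_sh_lt x h2
      exact h84_sh_self s' x' h3
  subst h1
  refine ⟨rfl, ?_⟩
  funext n
  have h2 := congrFun h (s + 1 + n)
  exact propext ((h84_sh_add s n x).symm.trans ((iff_of_eq h2).trans (h84_sh_add s n x')))

open Classical in
/-- The function coded by `x`. -/
noncomputable def h84_dec (x : ℕ → Prop) (n : ℕ) : ℕ :=
  if h : ∃ j, x (Nat.pair n j) then Nat.find h else 0

theorem h84_dec_le (x : ℕ → Prop) (n k : ℕ) : h84_dec x n ≤ k ↔ fnLe x n k := by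
  classical
  unfold h84_dec fnLe
  by_cases h : ∃ j, x (Nat.pair n j)
  · rw [dif_pos h, Nat.find_le_iff]
    constructor
    · rintro ⟨m, hm, hx⟩
      exact Or.inl ⟨m, hm, hx⟩
    · rintro (⟨j, hj, hx⟩ | h1)
      · exact ⟨j, hj, hx⟩
      · exact absurd h (by push Not; exact h1)
  · rw [dif_neg h]
    push Not at h
    exact ⟨fun _ => Or.inr h, fun _ => Nat.zero_le _⟩

theorem h84_b_le {E : Set (ℕ → Prop)} (hE : ∀ y : ℕ → Prop, ∃ x ∈ E, ¬ LeStar x y) :
    bNum ≤ #E := by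
  have h1 : Unbdd (h84_dec '' E) := by
    intro g
    obtain ⟨x, hx, hx'⟩ := hE fun c => g (Nat.unpair c).1 = (Nat.unpair c).2
    refine ⟨h84_dec x, ⟨x, hx, rfl⟩, ?_⟩
    rintro ⟨m, hm⟩
    apply hx'
    refine ⟨m, fun n hn k hk => ?_⟩
    rw [← h84_dec_le]
    refine (hm n hn).trans ?_
    rcases hk with ⟨j, hj, h⟩ | h
    · simp only [Nat.unpair_pair] at h
      rw [h]
      exact hj
    · exact absurd (by simp) (h (g n))
  calc bNum ≤ #(h84_dec '' E) := csInf_le' ⟨_, h1, rfl⟩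
    _ ≤ #E := mk_image_le

theorem h84_aBorel_mem : ∃ 𝒜 : Set (Set (ℕ → Bool)),
    (∀ A ∈ 𝒜, @MeasurableSet (ℕ → Bool) (borel (ℕ → Bool)) A ∧ ADB A) ∧
      MADB (⋃₀ 𝒜) ∧ #𝒜 = aBorel := by
  refine csInf_mem (s := {κ : Cardinal.{0} | ∃ 𝒜 : Set (Set (ℕ → Bool)),
    (∀ A ∈ 𝒜, @MeasurableSet (ℕ → Bool) (borel (ℕ → Bool)) A ∧ ADB A) ∧
      MADB (⋃₀ 𝒜) ∧ #𝒜 = κ}) ?_
  obtain ⟨M, hM⟩ := h84_exists_mad
  refine ⟨_, (fun x => {x}) '' M, ?_, ?_, rfl⟩
  · rintro _ ⟨x, hx, rfl⟩
    refine ⟨?_, ?_, ?_⟩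
    · let _ : MeasurableSpace (ℕ → Bool) := borel (ℕ → Bool)
      have : BorelSpace (ℕ → Bool) := ⟨rfl⟩
      exact isClosed_singleton.measurableSet
    · rintro y rfl
      exact hM.2.1.1 _ hx
    · rintro y rfl z rfl h
      exact absurd rfl h
  · have h : ⋃₀ ((fun x : ℕ → Bool => ({x} : Set (ℕ → Bool))) '' M) = M := by
      ext x
      simp
    rw [h]
    exact hM

theorem h84_fin_iff {x : ℕ → Prop} : Fin' x ↔ {n | x n}.Finite := by
  constructor
  · rintro ⟨m, hm⟩
    refine (Set.finite_lt_nat m).subset fun n hn => ?_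
    by_contra h
    exact hm n (not_lt.1 h) hn
  · intro h
    obtain ⟨m, hm⟩ := h.bddAbove
    refine ⟨m + 1, fun n hn hx => ?_⟩
    have := hm hx
    omega

/-- The ZFC part, from the representation of the Borel sets by trees. -/
theorem h84_b_lt (hB : ∀ A : Set (ℕ → Bool), @MeasurableSet (ℕ → Bool) (borel (ℕ → Bool)) A →
      ∃ T : List (Bool × ℕ) → Prop, ∀ a : ℕ → Prop,
        (∃ w : ℕ → Prop, BrT T a w) ↔ ∃ x ∈ A, ∀ n, x n = true ↔ a n)
    (h : Sentence Set.univ Set.univ) : bNum < aBorel := by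
  classical
  obtain ⟨E, -, -, hE, hC⟩ := h
  have hE' : ∀ y : ℕ → Prop, ∃ x ∈ E, ¬ LeStar x y := fun y => hE y trivial
  refine (h84_b_le hE').trans_lt ?_
  by_contra hcon
  rw [not_lt] at hcon
  obtain ⟨𝒜, h𝒜, hmad, hcard⟩ := h84_aBorel_mem
  rw [← hcard, le_def] at hcon
  obtain ⟨emb⟩ := hcon
  have hne : Nonempty 𝒜 := by
    obtain ⟨x, A, hA, -⟩ := hmad.1.nonempty
    exact ⟨⟨A, hA⟩⟩
  let s : E → 𝒜 := Function.invFun emb
  have hs : Function.Surjective s := Function.invFun_surjective emb.injective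
  have hB' : ∀ A : 𝒜, ∃ T : List (Bool × ℕ) → Prop, ∀ a : ℕ → Prop,
      (∃ w : ℕ → Prop, BrT T a w) ↔ ∃ x ∈ A.1, ∀ n, x n = true ↔ a n :=
    fun A => hB A.1 (h𝒜 A.1 A.2).1
  choose T hT using hB'
  let C : Set (ℕ → Prop) := {y | ∃ t : List (Bool × ℕ), ∃ x : E,
    y = sh (Encodable.encode t) x.1 ∧ T (s x) t}
  have htree : ∀ x : E, tree C x.1 = T (s x) := by
    intro x
    funext t
    apply propext
    constructor
    · rintro ⟨t', x', h1, h2⟩
      obtain ⟨h3, h4⟩ := h84_sh_inj h1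
      have h5 : t = t' := Encodable.encode_injective h3
      have h6 : x = x' := Subtype.ext h4
      rw [h5, h6]
      exact h2
    · intro h1
      exact ⟨t, x, rfl, h1⟩
  have hFam : ∀ a, a ∈ Fam Set.univ E C ↔ ∃ x ∈ ⋃₀ 𝒜, ∀ n, x n = true ↔ a n := by
    intro a
    constructor
    · rintro ⟨-, x, hx, w, -, hw⟩
      have h1 := htree ⟨x, hx⟩
      simp only at h1
      rw [h1] at hw
      obtain ⟨y, hy, hy'⟩ := (hT _ a).1 ⟨w, hw⟩
      exact ⟨y, ⟨_, (s ⟨x, hx⟩).2, hy⟩, hy'⟩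
    · rintro ⟨y, ⟨A, hA, hy⟩, hy'⟩
      obtain ⟨x, hx⟩ := hs ⟨A, hA⟩
      obtain ⟨w, hw⟩ := (hT (s x) a).2 ⟨y, by rw [hx]; exact hy, hy'⟩
      refine ⟨trivial, x.1, x.2, w, trivial, ?_⟩
      rw [htree x]
      exact hw
  obtain ⟨z, -, hz, hz'⟩ := hC C trivial (by
    intro a ha b hb
    obtain ⟨x, hx, hxa⟩ := (hFam a).1 ha
    obtain ⟨y, hy, hyb⟩ := (hFam b).1 hb
    by_cases hxy : x = y
    · left
      subst hxy
      funext n
      exact propext ((hxa n).symm.trans (hyb n))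
    · right
      rw [h84_fin_iff]
      have h1 := hmad.2.1.2 x hx y hy hxy
      refine h1.subset fun n hn => ?_
      exact ⟨(hxa n).2 hn.1, (hyb n).2 hn.2⟩) (by
    intro l hl hfin
    rw [h84_fin_iff] at hfin
    have h1 : ∀ a ∈ l, ∃ x ∈ ⋃₀ 𝒜, ∀ n, x n = true ↔ a n := fun a ha => (hFam a).1 (hl a ha)
    choose! g hg1 hg2 using h1
    have h2 : (⋃₀ 𝒜 \ {x | x ∈ l.map g}).Nonempty :=
      (hmad.1.sdiff (List.finite_toSet _)).nonempty
    obtain ⟨c, hc, hcl⟩ := h2
    have h3 : InfB c := hmad.2.1.1 c hc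
    apply h3
    have h4 : {n | c n = true} ⊆ {n | ¬ ∃ a ∈ l, a n} ∪
        ⋃ a ∈ {a | a ∈ l}, {n | c n = true ∧ g a n = true} := by
      intro n hn
      by_cases h5 : ∃ a ∈ l, a n
      · right
        obtain ⟨a, ha, han⟩ := h5
        simp only [Set.mem_iUnion]
        exact ⟨a, ha, hn, (hg2 a ha n).2 han⟩
      · left
        exact h5
    refine Set.Finite.subset (hfin.union ?_) h4
    refine Set.Finite.biUnion (List.finite_toSet l) fun a ha => ?_
    refine hmad.2.1.2 c hc (g a) (hg1 a ha) ?_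
    rintro rfl
    exact hcl (List.mem_map.2 ⟨a, ha, rfl⟩))
  apply hmad.2.2
  refine ⟨fun n => decide (z n), ?_, ?_⟩
  · unfold InfB
    intro h1
    apply hz
    rw [h84_fin_iff]
    simpa using h1
  · intro x hx
    have h1 := hz' (fun n => x n = true) ((hFam _).2 ⟨x, hx, fun n => Iff.rfl⟩)
    rw [h84_fin_iff] at h1
    simpa using h1

end Pool.Agent.Helper94.BA
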