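import Pool.Agent.Helper84.BA.Zfc
import Pool.Agent.Helper9.BA.BorelTree

/-!
# Project BA, module V5b: the sentence implies `b < a_Borel`
-/

set_option autoImplicit false

namespace Pool.Agent.Helper94.BA

theorem b_lt_aBorel (h : Sentence Set.univ Set.univ) : bNum < aBorel :=
  h84_b_lt (fun _ hA => exists_tree_of_borel hA) h

end Pool.Agent.Helper94.BA
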